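import Pool.Agent.Work.MP_1001d8_an.Main

/-! The twisted sequence space is separable. -/

set_option autoImplicit false

namespace Pool.Agent.Work.MP_1001d8_an.Sp

open Finset TopologicalSpace Pool.Agent.Work.MP_1001d8_an

theorem separable : SeparableSpace TW := by
  let S : Set TW := Set.range (fun i => sing i (1, 0)) ∪ Set.range (fun i => sing i (0, 1))
  have hS : S.Countable := (Set.countable_range _).union (Set.countable_range _)
  have h1 : IsSeparable (closure (Submodule.span ℝ S : Set TW)) := hS.isSeparable.span.closure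
  rw [← isSeparable_univ_iff]
  refine h1.mono fun z _ => Metric.mem_closure_iff.2 fun ε hε => ?_
  obtain ⟨m, hm⟩ := z.prop (ε / 2) (by linarith)
  refine ⟨∑ i ∈ range m, sing i (z.val i), Submodule.sum_mem _ fun i _ => ?_, ?_⟩
  · rw [sing_eq]
    exact Submodule.add_mem _
      (Submodule.smul_mem _ _ (Submodule.subset_span (Or.inl ⟨i, rfl⟩)))
      (Submodule.smul_mem _ _ (Submodule.subset_span (Or.inr ⟨i, rfl⟩)))
  · rw [dist_eq_norm]
    refine lt_of_le_of_lt (norm_le fun A => ?_) (half_lt_self hε)
    have e : (z - ∑ i ∈ range m, sing i (z.val i)).val = tail m z.val := by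
      funext j
      rw [TW.val_sub, TW.val_sum, Pi.sub_apply, Finset.sum_apply]
      simp only [sing_val, tail, Pi.single_apply, sum_ite_eq, mem_range]
      by_cases h : m ≤ j
      · simp [h, not_lt.2 h]
      · simp [h, not_le.1 h]
    rw [e]
    exact hm A

end Pool.Agent.Work.MP_1001d8_an.Sp
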